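import Pool.Agent.V1149.GC.Two

/-!
# MP_69376a: geproci sets have unexpected cones of degrees `a` and `b`

Let `Z ⊂ ℙ³` be a nontrivial `(a, b)`-geproci set.  If for some `d` with `a ≤ d ≤ a + b - 3` the
condition `C(d)` failed, then for a general point `P` every form of degree `d` would agree on `Z`
with a cone with vertex `P`; the socle of the coordinate ring of a general line section of the
complete intersection obtained by projection would then be nonzero in a degree less than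
`a + b - 2`.
-/

set_option autoImplicit false
open MvPolynomial
open scoped LinearAlgebra.Projectivization

namespace Pool.Agent.Results.MP_69376a_ag.UnexpectedCones

/-- `Z` is not contained in a plane. -/
def Nondegenerate (Z : Finset (ℙ ℂ (Fin 4 → ℂ))) : Prop := (⨆ z ∈ Z, z.submodule) = ⊤

/-- The linear projection from `p` to the plane `x_3 = 0`, in coordinates. -/
def projection (p x : Fin 4 → ℂ) : Fin 3 → ℂ :=
  fun i => p (Fin.last 3) * x i.castSucc - x (Fin.last 3) * p i.castSucc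

/-- `Z` is `(a, b)`-geproci: for a general point `p` the ideal of the projection of `Z` from `p` to
a plane is generated by a form of degree `a` and a form of degree `b`. -/
def GeprociType (Z : Finset (ℙ ℂ (Fin 4 → ℂ))) (a b : ℕ) : Prop :=
  ∃ h : MvPolynomial (Fin 4) ℂ, h ≠ 0 ∧ ∀ p : Fin 4 → ℂ, eval p h ≠ 0 →
    ∃ F G : MvPolynomial (Fin 3) ℂ, F.IsHomogeneous a ∧ G.IsHomogeneous b ∧
      ∀ f : MvPolynomial (Fin 3) ℂ, f ∈ Ideal.span {F, G} ↔
        ∀ z ∈ Z, ∀ t : ℂ, eval (t • projection p z.rep) f = 0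

/-- `Z` is a grid: the set of the points of intersection of `a` pairwise skew lines `L i` with `b`
pairwise skew lines `M j`, each `L i` meeting each `M j`, where `2 ≤ a ≤ b`. -/
def IsGrid (Z : Finset (ℙ ℂ (Fin 4 → ℂ))) : Prop :=
  ∃ a b : ℕ, 2 ≤ a ∧ a ≤ b ∧
    ∃ L : Fin a → Submodule ℂ (Fin 4 → ℂ), ∃ M : Fin b → Submodule ℂ (Fin 4 → ℂ),
    (∀ i, Module.finrank ℂ (L i) = 2) ∧ (∀ j, Module.finrank ℂ (M j) = 2) ∧
    (∀ i i', i ≠ i' → L i ⊓ L i' = ⊥) ∧ (∀ j j', j ≠ j' → M j ⊓ M j' = ⊥) ∧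
    (∀ i j, Module.finrank ℂ (↥(L i ⊓ M j)) = 1) ∧
    ∀ z : ℙ ℂ (Fin 4 → ℂ), z ∈ Z ↔ ∃ i j, z.submodule = L i ⊓ M j

/-- `[I(Z)]_d`: the forms of degree `d` vanishing on `Z`. -/
noncomputable def idealPart (Z : Finset (ℙ ℂ (Fin 4 → ℂ))) (d : ℕ) : Submodule ℂ (MvPolynomial (Fin 4) ℂ) where
  carrier := {f | f.IsHomogeneous d ∧ ∀ z ∈ Z, eval z.rep f = 0}
  add_mem' := fun {f g} hf hg => ⟨hf.1.add hg.1, fun z hz => by
    rw [map_add, hf.2 z hz, hg.2 z hz, add_zero]⟩
  zero_mem' := ⟨isHomogeneous_zero _ _ _, fun z _ => map_zero _⟩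
  smul_mem' := fun c f hf => ⟨by
    rw [smul_eq_C_mul]
    exact hf.1.C_mul c, fun z hz => by rw [smul_eval, hf.2 z hz, mul_zero]⟩

/-- `I(P)`: the ideal of the point `P`, i.e. of all polynomials vanishing on the line of
multiples of the vector `P`. -/
noncomputable def pointIdeal (P : Fin 4 → ℂ) : Ideal (MvPolynomial (Fin 4) ℂ) where
  carrier := {f | ∀ t : ℂ, eval (t • P) f = 0}
  add_mem' := fun {f g} hf hg t => by rw [map_add, hf t, hg t, add_zero]
  zero_mem' := fun _ => map_zero _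
  smul_mem' := fun c f hf t => by rw [smul_eq_mul, map_mul, hf t, mul_zero]

/-- `[I(Z) ∩ I(P)^d]_d`: the cones of degree `d` with vertex `P` that contain `Z`. -/
noncomputable def conePart (Z : Finset (ℙ ℂ (Fin 4 → ℂ))) (P : Fin 4 → ℂ) (d : ℕ) :
    Submodule ℂ (MvPolynomial (Fin 4) ℂ) :=
  idealPart Z d ⊓ (pointIdeal P ^ d).restrictScalars ℂ

/-- Condition `C(d)`: for a general point `P`,
`dim [I(Z) ∩ I(P)^d]_d > max {0, dim [I(Z)]_d - (d + 2 choose 3)}`. -/
def UnexpectedCone (Z : Finset (ℙ ℂ (Fin 4 → ℂ))) (d : ℕ) : Prop :=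
  ∃ h : MvPolynomial (Fin 4) ℂ, h ≠ 0 ∧ ∀ P : Fin 4 → ℂ, eval P h ≠ 0 →
    max 0 ((Module.finrank ℂ (idealPart Z d) : ℤ) - ((d + 2).choose 3 : ℕ)) <
      (Module.finrank ℂ (conePart Z P d) : ℤ)

open Pool.Agent.V1149.GC Pool.Agent.Helper947.Geo Pool.Agent.Y206.G Pool.Agent.Y206.Q

/-- cones lie in the power of the ideal of the vertex -/
lemma cone_mem_pow (P : Fin 4 → ℂ) {g : MvPolynomial (Fin 3) ℂ} {d : ℕ}
    (hg : g.IsHomogeneous d) : cone P g ∈ pointIdeal P ^ d := by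
  have hX : ∀ i : Fin 3, cone P (X i) ∈ pointIdeal P := by
    intro i t
    rw [eval_cone, eval_X]
    have h1 : projv P (t • P) = 0 := by
      funext i
      simp only [projv, Pi.zero_apply, Pi.smul_apply, smul_eq_mul]
      ring
    rw [h1]
    rfl
  have h1 : cone P g = ∑ e ∈ g.support, C (coeff e g) * ∏ i, (cone P (X i)) ^ e i := by
    conv_lhs => rw [g.as_sum]
    rw [map_sum]
    refine Finset.sum_congr rfl fun e _ => ?_
    rw [monomial_eq, map_mul, Finsupp.prod_fintype _ _ (fun i => pow_zero _), map_prod]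
    congr 1
    · exact (cone P).commutes _
    · exact Finset.prod_congr rfl fun i _ => map_pow _ _ _
  rw [h1]
  refine Ideal.sum_mem _ fun e he => Ideal.mul_mem_left _ _ ?_
  have hdeg : ∑ i, e i = d := by
    by_contra hne
    rw [← Finsupp.degree_eq_sum] at hne
    exact (mem_support_iff.mp he) (hg.coeff_eq_zero hne)
  rw [← hdeg, ← Finset.prod_pow_eq_pow_sum]
  exact Ideal.prod_mem_prod fun i _ => Ideal.pow_mem_pow (hX i) _

/-- the dimension count -/
lemma count (Z : Finset (ℙ ℂ (Fin 4 → ℂ))) (P : Fin 4 → ℂ) (hP : P (Fin.last 3) ≠ 0) (d : ℕ)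
    {f : MvPolynomial (Fin 4) ℂ} (hf : f.IsHomogeneous d)
    (hfn : ∀ g : MvPolynomial (Fin 3) ℂ, g.IsHomogeneous d →
      ¬ ∀ k : Z, eval k.1.rep f = eval (projv P k.1.rep) g) :
    Module.finrank ℂ (idealPart Z d) < Module.finrank ℂ (conePart Z P d) + (d + 2).choose 3 := by
  set V := homogeneousSubmodule (Fin 4) ℂ d with hV
  set U := (homogeneousSubmodule (Fin 3) ℂ d).map (cone P).toLinearMap with hU
  have hVfin : Module.finrank ℂ V = (3 + d).choose 3 := finrank_forms 3 d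
  have hVpos : 0 < Module.finrank ℂ V := by
    rw [hVfin]; exact Nat.choose_pos (by omega)
  have : FiniteDimensional ℂ V := Module.finite_of_finrank_pos hVpos
  have hUV : U ≤ V := by
    rintro _ ⟨g, hg, rfl⟩
    exact cone_hom P ((mem_homogeneousSubmodule d g).1 hg)
  have hAV : idealPart Z d ≤ V := fun g hg => (mem_homogeneousSubmodule d g).2 hg.1
  have hUfin : Module.finrank ℂ U = (2 + d).choose 2 := by
    rw [← finrank_forms 2 d]
    exact (LinearEquiv.finrank_eq (Submodule.equivMapOfInjective (cone P).toLinearMap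
      (cone_inj hP) (homogeneousSubmodule (Fin 3) ℂ d))).symm
  have hlt : U ⊔ idealPart Z d < V := by
    refine lt_of_le_of_ne (sup_le hUV hAV) fun heq => ?_
    have h1 : f ∈ U ⊔ idealPart Z d := by
      rw [heq]
      exact (mem_homogeneousSubmodule d f).2 hf
    obtain ⟨_, ⟨g, hg, rfl⟩, q, hq, hgq⟩ := Submodule.mem_sup.1 h1
    refine hfn g ((mem_homogeneousSubmodule d g).1 hg) fun k => ?_
    rw [← hgq, map_add, hq.2 k.1 k.2, add_zero]
    exact eval_cone P _ g
  have : FiniteDimensional ℂ U := Submodule.finiteDimensional_of_le hUV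
  have : FiniteDimensional ℂ (idealPart Z d) := Submodule.finiteDimensional_of_le hAV
  have h2 := Submodule.finrank_lt_finrank_of_lt hlt
  have h3 := Submodule.finrank_sup_add_finrank_inf_eq U (idealPart Z d)
  have h4 : U ⊓ idealPart Z d ≤ conePart Z P d := by
    rintro _ ⟨⟨g, hg, rfl⟩, hq⟩
    exact ⟨hq, cone_mem_pow P ((mem_homogeneousSubmodule d g).1 hg)⟩
  have : FiniteDimensional ℂ (conePart Z P d) :=
    Submodule.finiteDimensional_of_le (inf_le_left.trans hAV)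
  have h5 := Submodule.finrank_mono h4
  have h6 : (3 + d).choose 3 = (2 + d).choose 2 + (2 + d).choose 3 := by
    rw [show 3 + d = (2 + d) + 1 by omega, Nat.choose_succ_succ]
  rw [hVfin] at h2
  rw [hUfin] at h3
  rw [add_comm d 2]
  omega

/-- positivity -/
lemma pos (Z : Finset (ℙ ℂ (Fin 4 → ℂ))) (P : Fin 4 → ℂ) (hP : P (Fin.last 3) ≠ 0) (d : ℕ)
    {g : MvPolynomial (Fin 3) ℂ} (hg : g.IsHomogeneous d) (hg0 : g ≠ 0)
    (hgv : ∀ z ∈ Z, eval (projv P z.rep) g = 0) :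
    0 < Module.finrank ℂ (conePart Z P d) := by
  have hVfin : Module.finrank ℂ (homogeneousSubmodule (Fin 4) ℂ d) = (3 + d).choose 3 :=
    finrank_forms 3 d
  have hVpos : 0 < Module.finrank ℂ (homogeneousSubmodule (Fin 4) ℂ d) := by
    rw [hVfin]; exact Nat.choose_pos (by omega)
  have : FiniteDimensional ℂ (homogeneousSubmodule (Fin 4) ℂ d) :=
    Module.finite_of_finrank_pos hVpos
  have : FiniteDimensional ℂ (conePart Z P d) :=
    Submodule.finiteDimensional_of_le (S₂ := homogeneousSubmodule (Fin 4) ℂ d)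
      (inf_le_left.trans fun g hg => (mem_homogeneousSubmodule d g).2 hg.1)
  rw [Module.finrank_pos_iff_exists_ne_zero]
  refine ⟨⟨cone P g, ⟨cone_hom P hg, fun z hz => ?_⟩, cone_mem_pow P hg⟩, ?_⟩
  · rw [eval_cone, hgv z hz]
  · intro h0
    have h1 : cone P g = 0 := congrArg Subtype.val h0
    exact hg0 ((injective_iff_map_eq_zero _).1 (cone_inj hP) g h1)

/-- the general statement -/
lemma general (Z : Finset (ℙ ℂ (Fin 4 → ℂ))) (a b : ℕ)
    (hpair : ∀ k l : Z, k ≠ l → LinearIndependent ℂ ![k.1.rep, l.1.rep])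
    (hsp : Submodule.span ℂ (Set.range fun z : Z => z.1.rep) = ⊤) [Nonempty Z]
    (hG : Gep (fun z : Z => z.1.rep) a b) (ha : 1 ≤ a) (d : ℕ) (had : a ≤ d)
    (hd : d + 3 ≤ a + b) : UnexpectedCone Z d := by
  obtain ⟨φ, hφ, hφP⟩ := hG
  obtain ⟨φ₁, hφ₁, h1P⟩ := projv_pair (fun z : Z => z.1.rep) hpair (fun z => z.1.rep_nonzero)
  refine ⟨φ * φ₁, mul_ne_zero hφ hφ₁, fun P hP => ?_⟩
  rw [map_mul] at hP
  obtain ⟨F, G, hF, hG, hI⟩ := hφP P (left_ne_zero_of_mul hP)
  obtain ⟨hPl, hw2, hw0⟩ := h1P P (right_ne_zero_of_mul hP)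
  obtain ⟨f, hf, hfn⟩ := key (fun z : Z => z.1.rep) hsp hPl hF hG hI hw0 hw2 (by omega) hd
  obtain ⟨-, -, hF0, -, -, -⟩ := gor_pair hF hG hI hw0
  have h1 := count Z P hPl d hf hfn
  have hF' : (F * X 0 ^ (d - a)).IsHomogeneous d := by
    have h2 := hF.mul ((isHomogeneous_X ℂ (0 : Fin 3)).pow (d - a))
    rwa [one_mul, show a + (d - a) = d by omega] at h2
  have h2 := pos Z P hPl d hF' (mul_ne_zero hF0 (pow_ne_zero _ (X_ne_zero _))) (fun z hz => by
    have h3 := (hI F).1 (Ideal.subset_span (by simp)) ⟨z, hz⟩ 1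
    rw [one_smul] at h3
    rw [map_mul, h3, zero_mul])
  rw [max_lt_iff]
  constructor
  · exact_mod_cast h2
  · have h3 : (Module.finrank ℂ (idealPart Z d) : ℤ) <
        Module.finrank ℂ (conePart Z P d) + ((d + 2).choose 3 : ℕ) := by exact_mod_cast h1
    linarith

/-- a grid spanning the space, in the weak sense, is a grid with `2 ≤ a ≤ b` -/
lemma grid_of_grid (Z : Finset (ℙ ℂ (Fin 4 → ℂ)))
    (hsp : Submodule.span ℂ (Set.range fun z : Z => z.1.rep) = ⊤) (h : Grid Z) : IsGrid Z := by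
  obtain ⟨a, b, L, M, h1, h2, h3, h4, h5, h6⟩ := h
  have hsmall : ∀ (n : ℕ) (N : Fin n → Submodule ℂ (Fin 4 → ℂ)),
      (∀ i, Module.finrank ℂ (N i) = 2) → (∀ z ∈ Z, ∃ i, z.submodule ≤ N i) → 2 ≤ n := by
    intro n N hN hZ
    by_contra hcon
    have h7 : ∃ Q : Submodule ℂ (Fin 4 → ℂ), Module.finrank ℂ Q = 2 ∧ ∀ z ∈ Z,
        z.submodule ≤ Q := by
      rcases (show n = 0 ∨ n = 1 by omega) with rfl | rfl
      · have hQ : ∃ Q : Submodule ℂ (Fin 4 → ℂ), Module.finrank ℂ Q = 2 := by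
          have h8 : (2 : ℕ) ≤ Module.finrank ℂ (Fin 4 → ℂ) := by simp
          obtain ⟨v, hv⟩ := exists_linearIndependent_of_le_finrank h8
          exact ⟨_, by rw [finrank_span_eq_card hv]; simp⟩
        obtain ⟨Q, hQ⟩ := hQ
        refine ⟨Q, hQ, fun z hz => ?_⟩
        obtain ⟨i, -⟩ := hZ z hz
        exact i.elim0
      · refine ⟨N 0, hN 0, fun z hz => ?_⟩
        obtain ⟨i, hi⟩ := hZ z hz
        rwa [Subsingleton.elim i 0] at hi
    obtain ⟨Q, hQ, hZQ⟩ := h7
    have h8 : Q = ⊤ := by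
      rw [eq_top_iff, ← hsp, Submodule.span_le]
      rintro _ ⟨z, rfl⟩
      exact (sub_le_iff z.1 Q).1 (hZQ z.1 z.2)
    rw [h8, finrank_top, Module.finrank_fin_fun] at hQ
    omega
  have ha : 2 ≤ a := hsmall a L h1 fun z hz => by
    obtain ⟨i, j, hij⟩ := (h6 z).1 hz
    exact ⟨i, by rw [hij]; exact inf_le_left⟩
  have hb : 2 ≤ b := hsmall b M h2 fun z hz => by
    obtain ⟨i, j, hij⟩ := (h6 z).1 hz
    exact ⟨j, by rw [hij]; exact inf_le_right⟩
  rcases le_total a b with hab | hab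
  · exact ⟨a, b, ha, hab, L, M, h1, h2, h3, h4, h5, h6⟩
  · refine ⟨b, a, hb, hab, M, L, h2, h1, h4, h3, fun i j => ?_, fun z => ?_⟩
    · rw [inf_comm]; exact h5 j i
    · rw [h6 z]
      constructor
      · rintro ⟨i, j, h⟩
        exact ⟨j, i, by rw [h, inf_comm]⟩
      · rintro ⟨j, i, h⟩
        exact ⟨i, j, by rw [h, inf_comm]⟩

/-- **Main result.**  Every nontrivial `(a, b)`-geproci set satisfies `C(a)` and `C(b)`; indeed
it satisfies `C(d)` for all `a ≤ d ≤ a + b - 3`, and `a ≥ 3`. -/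
theorem result : ∀ (Z : Finset (ℙ ℂ (Fin 4 → ℂ))) (a b : ℕ), a ≤ b → Nondegenerate Z →
    GeprociType Z a b → ¬ IsGrid Z →
      (UnexpectedCone Z a ∧ UnexpectedCone Z b) ∧
        ∀ d : ℕ, a ≤ d → d + 3 ≤ a + b → UnexpectedCone Z d := by
  classical
  intro Z a b hab hspan hG hgrid
  have hpair : ∀ k l : Z, k ≠ l → LinearIndependent ℂ ![k.1.rep, l.1.rep] := by
    intro k l hkl
    rw [LinearIndependent.pair_iff' k.1.rep_nonzero]
    intro c hc
    apply hkl
    apply Subtype.ext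
    rw [← k.1.mk_rep, ← l.1.mk_rep, Projectivization.mk_eq_mk_iff']
    have hc0 : c ≠ 0 := by
      rintro rfl
      rw [zero_smul] at hc
      exact l.1.rep_nonzero hc.symm
    refine ⟨c⁻¹, ?_⟩
    rw [← hc, smul_smul, inv_mul_cancel₀ hc0, one_smul]
  have hsp : Submodule.span ℂ (Set.range fun z : Z => z.1.rep) = ⊤ := by
    rw [eq_top_iff, ← hspan]
    refine iSup_le fun z => iSup_le fun hz => ?_
    rw [sub_le_iff]
    exact Submodule.subset_span ⟨⟨z, hz⟩, rfl⟩
  have hGep : Gep (fun z : Z => z.1.rep) a b := by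
    obtain ⟨h, hh, hp⟩ := hG
    refine ⟨h, hh, fun P hP => ?_⟩
    obtain ⟨F, G, hF, hG, hI⟩ := hp P hP
    refine ⟨F, G, hF, hG, fun f => ?_⟩
    rw [hI f]
    exact ⟨fun h1 k => h1 k.1 k.2, fun h1 z hz => h1 ⟨z, hz⟩⟩
  have ha : 3 ≤ a := three_le Z hpair hsp a b hab hGep fun h => hgrid (grid_of_grid Z hsp h)
  have hne : Nonempty Z := by
    have h1 := finrank_range_le_card (R := ℂ) (fun z : Z => z.1.rep)
    rw [Set.finrank, hsp, finrank_top, Module.finrank_fin_fun] at h1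
    rw [← Fintype.card_pos_iff]
    omega
  have hall : ∀ d : ℕ, a ≤ d → d + 3 ≤ a + b → UnexpectedCone Z d := fun d h1 h2 =>
    general Z a b hpair hsp hGep (by omega) d h1 h2
  exact ⟨⟨hall a le_rfl (by omega), hall b hab (by omega)⟩, hall⟩

end Pool.Agent.Results.MP_69376a_ag.UnexpectedCones
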